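import Pool.Agent.KS6_61.TR.Conc
import Pool.Agent.KS6_61.TR.Pet

/-!
# Expanding vertices to triangles: SCC = CPP is governed by double covers, the cycle cover
property is invariant

For a 3-connected cubic graph `G` and any set `U` of vertices let `G_U` be obtained by replacing
the vertices of `U` by triangles. Then `G_U` has the cycle cover property iff `G` has it, but
`SCC(G_U) = CPP(G_U)` iff `G` has a cycle double cover in which some edge-disjoint members together
pass through all vertices outside `U`. For the truncation (`U` = all vertices) this says: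
`SCC = CPP` iff `G` has a cycle double cover. So the truncation of `G` is a counterexample to Q1
iff `G` has a cycle double cover but not the cycle cover property, and there are cubic
counterexamples on `n` vertices for every even `n ≥ 12`.
-/

set_option autoImplicit false
set_option linter.unusedSectionVars false

open Classical Finset
open Pool.Agent.Results.MP_b9ebd9_co.ThreeConnectedCounterexample
  (ThreeConnected IsPostmanTour CPP IsCycleCover coverLength SCC cutWeight IsEulerianWeight
    IsCycleWCover CycleCoverProperty)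
open Pool.Agent.KS6_61.TR

namespace Pool.Agent.Results.MP_b9ebd9_co.Truncations

section
variable {V : Type} [Fintype V]

lemma hasCDC_iff (G : SimpleGraph V) : HasCDC G ↔ Cdc G := evCover_iff G (fun _ => 2)

lemma through_iff (G : SimpleGraph V) (A : Set V) :
    HasCDCThrough G A ↔ CdcThrough G (fun v => v ∈ A) := by
  constructor
  · rintro ⟨Z, F, ⟨h1, h2⟩, h3, h4⟩
    obtain ⟨LZ, z1, z2⟩ := toEv Z (fun C hC => h1 C (List.mem_append.2 (Or.inl hC)))
    obtain ⟨LF, f1, f2⟩ := toEv F (fun C hC => h1 C (List.mem_append.2 (Or.inr hC)))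
    have hz : ∀ a b, G.Adj a b → mul LZ a b ≤ 1 := by
      intro a b hab
      rw [z2]
      refine le_trans (le_of_eq ?_) (h3 s(a, b) hab)
      refine List.countP_congr fun C _ => ?_
      simp only [decide_eq_true_eq]
    let D : SimpleGraph V :=
      { Adj := fun u v => mul LZ u v = 1
        symm := ⟨fun u v h => by rw [mul_symm]; exact h⟩
        loopless := ⟨fun u h => by
          have := mul_zero_of_le LZ (fun K hK => (z1 K hK).1) (G.loopless.irrefl u)
          omega⟩ }
    have hD : D ≤ G := by
      intro u v h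
      by_contra hn
      have := mul_zero_of_le LZ (fun K hK => (z1 K hK).1) hn
      have h' : mul LZ u v = 1 := h
      omega
    have hind : ∀ u v, ind D u v = mul LZ u v := by
      intro u v
      unfold ind
      by_cases h : G.Adj u v
      · have := hz u v h
        split_ifs with h'
        · have h'' : mul LZ u v = 1 := h'
          exact h''.symm
        · have h'' : ¬ mul LZ u v = 1 := h'
          omega
      · rw [if_neg (fun h' => h (hD h')), mul_zero_of_le LZ (fun K hK => (z1 K hK).1) h]
    refine ⟨D, LF, hD, fun v => ?_, f1, fun u v huv => ?_, fun v hv => ?_⟩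
    · unfold dg
      simp only [hind]
      exact sum_mul_even LZ (fun K hK => (z1 K hK).2) v
    · rw [hind, z2, f2, ← List.countP_append]
      refine Eq.trans ?_ (h2 s(u, v) huv)
      refine List.countP_congr fun C _ => ?_
      simp only [decide_eq_true_eq]
    · obtain ⟨C, hC, hvC⟩ := h4 v hv
      have hcyc := h1 C (List.mem_append.2 (Or.inl hC))
      have h5 := hcyc.ncard_neighborSet_toSubgraph_eq_two hvC
      have h6 : (C.2.toSubgraph.neighborSet v).Nonempty := by
        rw [Set.nonempty_iff_ne_empty]
        intro h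
        rw [h] at h5
        simp at h5
      obtain ⟨u, hu⟩ := h6
      refine ⟨u, ?_⟩
      have hmem : s(v, u) ∈ C.2.edges := by
        rw [← SimpleGraph.Walk.mem_edges_toSubgraph]
        exact hu
      have hadj : G.Adj v u := C.2.toSubgraph.adj_sub hu
      have h7 := hz v u hadj
      have h8 : 0 < mul LZ v u := by
        rw [z2]
        exact List.countP_pos_iff.2 ⟨C, hC, by simpa using hmem⟩
      show mul LZ v u = 1
      omega
  · rintro ⟨D, L, hD, hDe, l1, l2, l3⟩
    obtain ⟨Z, z1, z2⟩ := toCyc1 D hD hDe
    obtain ⟨F, f1, f2⟩ := toCyc L l1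
    refine ⟨Z, F, ⟨fun C hC => ?_, fun e he => ?_⟩, fun e he => ?_, fun v hv => ?_⟩
    · exact (List.mem_append.1 hC).elim (z1 C) (f1 C)
    · induction e using Sym2.ind with
      | _ a b =>
        rw [← l2 a b he, ← z2, ← f2, ← List.countP_append]
    · induction e using Sym2.ind with
      | _ a b =>
        refine le_trans (le_of_eq ?_) (ind_le D a b)
        rw [← z2]
    · obtain ⟨u, hu⟩ := l3 v hv
      have h1 := z2 v u
      unfold ind at h1
      rw [if_pos hu] at h1
      obtain ⟨C, hC, h'⟩ := List.countP_pos_iff.1 (by rw [h1]; exact Nat.one_pos)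
      exact ⟨C, hC, C.2.fst_mem_support_of_mem_edges (by simpa using h')⟩

lemma through_mono (G : SimpleGraph V) {A B : Set V} (h : A ⊆ B) (hB : HasCDCThrough G B) :
    HasCDCThrough G A := by
  obtain ⟨Z, F, h1, h2, h3⟩ := hB
  exact ⟨Z, F, h1, h2, fun v hv => h3 v (h hv)⟩

lemma nonempty_of (G : SimpleGraph V) (h3 : ThreeConnected G) : Nonempty V := by
  rw [← Fintype.card_pos_iff]; have := h3.1; omega

theorem expansion (G : SimpleGraph V) (hc : Cubic G) (h3 : ThreeConnected G) (U : Set V) :
    Cubic (expand G U) ∧ ThreeConnected (expand G U) ∧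
      Fintype.card (ExpVertex G U) = Fintype.card V + 2 * U.ncard ∧
      CPP (expand G U) = 2 * Fintype.card (ExpVertex G U) ∧
      (CycleCoverProperty (expand G U) ↔ CycleCoverProperty G) ∧
      (HasCDC (expand G U) ↔ HasCDC G) ∧
      (SCC (expand G U) = CPP (expand G U) ↔ HasCDCThrough G Uᶜ) := by
  obtain ⟨port, E, hin, hout⟩ := expand_exp hc (nonempty_of G h3) U
  have c1 := E.cubic hc
  have c2 := E.three hc h3
  refine ⟨c1, c2, E.card_eq hc U hin hout, cpp_eq c1 c2, E.ccp_iff hc, ?_, ?_⟩
  · rw [hasCDC_iff, hasCDC_iff]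
    exact E.cdc_iff hc
  · rw [scc_iff c1 c2, E.four_iff hc, through_iff]
    have : (fun v => ∀ u u', G.Adj v u → G.Adj v u' → port v u = port v u') =
        fun v => v ∈ Uᶜ := by
      funext v
      apply propext
      constructor
      · intro h hv
        obtain ⟨a, b, c, n1, n2, n3, hN⟩ := nbr3 hc v
        have ha : G.Adj v a := (hN a).2 (Or.inl rfl)
        have hb : G.Adj v b := (hN b).2 (Or.inr (Or.inl rfl))
        exact n1 (hin v hv a b ha hb (h a b ha hb))
      · intro hv
        exact hout v hv
    rw [this]

theorem itself (G : SimpleGraph V) (hc : Cubic G) (h3 : ThreeConnected G) :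
    CPP G = 2 * Fintype.card V ∧ (SCC G = CPP G ↔ HasCDCThrough G Set.univ) := by
  refine ⟨cpp_eq hc h3, ?_⟩
  have E : Exp G G id (fun v _ => v) := by
    refine ⟨fun _ _ _ => rfl, fun x => ?_, fun x y => ?_, fun _ => Or.inl fun _ _ _ _ => rfl⟩
    · obtain ⟨u, hu⟩ := nbr_exists hc x
      exact ⟨u, hu, rfl⟩
    · constructor
      · exact fun h => Or.inr ⟨h, rfl, rfl⟩
      · rintro (h | h)
        · exact absurd h.1 h.2
        · exact h.1
  rw [scc_iff hc h3, E.four_iff hc, through_iff]
  have : (fun v => ∀ u u', G.Adj v u → G.Adj v u' → v = v) = fun v => v ∈ Set.univ := by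
    funext v
    simp
  rw [this]

theorem truncated (G : SimpleGraph V) (hc : Cubic G) (h3 : ThreeConnected G) :
    SCC (truncation G) = CPP (truncation G) ↔ HasCDC G := by
  rw [(expansion G hc h3 Set.univ).2.2.2.2.2.2]
  constructor
  · rintro ⟨Z, F, h, _⟩
    exact ⟨Z ++ F, h⟩
  · rintro ⟨F, h⟩
    exact ⟨[], F, h, by simp, by simp⟩

end

theorem orders (k : ℕ) : ∃ (V : Type) (_ : Fintype V) (G : SimpleGraph V),
    Fintype.card V = 12 + 2 * k ∧ Cubic G ∧ ThreeConnected G ∧ SCC G = CPP G ∧
      ¬ CycleCoverProperty G := by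
  induction k with
  | zero =>
    obtain ⟨h1, h2, h3, _, h5, _, h7⟩ := expansion Pet pet_cubic pet_three {9}
    refine ⟨_, inferInstance, expand Pet {9}, ?_, h1, h2, ?_, ?_⟩
    · rw [h3, Set.ncard_singleton, Fintype.card_fin]
    · rw [h7, through_iff]
      have : (fun v : Fin 10 => v ∈ ({9} : Set (Fin 10))ᶜ) = fun v => v ≠ 9 := by
        funext v
        simp
      rw [this]
      exact pet_through
    · rw [h5]
      exact pet_not_ccp
  | succ k ih =>
    obtain ⟨V, _, G, g1, g2, g3, g4, g5⟩ := ih
    obtain ⟨v⟩ := nonempty_of G g3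
    obtain ⟨h1, h2, h3, _, h5, _, h7⟩ := expansion G g2 g3 {v}
    refine ⟨_, inferInstance, expand G {v}, ?_, h1, h2, ?_, ?_⟩
    · rw [h3, g1, Set.ncard_singleton]
      ring
    · rw [h7]
      exact through_mono G (Set.subset_univ _) ((itself G g2 g3).2.1 g4)
    · rw [h5]
      exact g5

/-- Expansions of vertices of 3-connected cubic graphs to triangles, the truncation, and the
resulting counterexamples to Q1. -/
theorem result :
    -- expansion of any set `U` of vertices of a 3-connected cubic graph
    (∀ (V : Type) [Fintype V] (G : SimpleGraph V), Cubic G → ThreeConnected G → ∀ U : Set V,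
      Cubic (expand G U) ∧ ThreeConnected (expand G U) ∧
      Fintype.card (ExpVertex G U) = Fintype.card V + 2 * U.ncard ∧
      CPP (expand G U) = 2 * Fintype.card (ExpVertex G U) ∧
      (CycleCoverProperty (expand G U) ↔ CycleCoverProperty G) ∧
      (HasCDC (expand G U) ↔ HasCDC G) ∧
      (SCC (expand G U) = CPP (expand G U) ↔ HasCDCThrough G Uᶜ)) ∧
    -- the graph itself
    (∀ (V : Type) [Fintype V] (G : SimpleGraph V), Cubic G → ThreeConnected G →
      CPP G = 2 * Fintype.card V ∧ (SCC G = CPP G ↔ HasCDCThrough G Set.univ)) ∧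
    -- the truncation: `SCC = CPP` iff `G` has a cycle double cover; it is a counterexample to Q1
    -- iff `G` has a cycle double cover but not the cycle cover property
    (∀ (V : Type) [Fintype V] (G : SimpleGraph V), Cubic G → ThreeConnected G →
      (SCC (truncation G) = CPP (truncation G) ↔ HasCDC G) ∧
      ((SCC (truncation G) = CPP (truncation G) ∧ ¬ CycleCoverProperty (truncation G)) ↔
        (HasCDC G ∧ ¬ CycleCoverProperty G))) ∧
    -- cubic counterexamples to Q1 of every even order from 12 on
    (∀ k : ℕ, ∃ (V : Type) (_ : Fintype V) (G : SimpleGraph V),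
      Fintype.card V = 12 + 2 * k ∧ Cubic G ∧ ThreeConnected G ∧ SCC G = CPP G ∧
        ¬ CycleCoverProperty G) := by
  refine ⟨fun V _ G hc h3 U => expansion G hc h3 U, fun V _ G hc h3 => itself G hc h3,
    fun V _ G hc h3 => ⟨truncated G hc h3, ?_⟩, orders⟩
  rw [truncated G hc h3, (expansion G hc h3 Set.univ).2.2.2.2.1]

end Pool.Agent.Results.MP_b9ebd9_co.Truncations
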